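import Pool.Agent.H752.GM.Stubs
import Pool.Agent.H620R2.GaugeR.R1
import Pool.Agent.H620R2.GaugeR.R2
import Pool.Agent.H620R2.GaugeX.X7
import Pool.Agent.H620R2.Gauge2.V7
import Pool.Agent.H620R2.Gauge2.Trans

/-!
# If `PSPACE = ZPP` relative to `A`, then there is a sparse Cook-complete set for `NP` (task S2)
-/

namespace Pool.Agent.H752.GM

open Pool.Agent.NPC Pool.Agent.H620R2.Gauge Pool.Agent.H622R2

namespace SparseC

/-- part `i` (of length `m`) of the string `w` -/
def part (m i : ℕ) (w : List Bool) : List Bool :=
  (List.range m).map (fun j => w.getD (i * m + j) false)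

theorem length_part (m i : ℕ) (w : List Bool) : (part m i w).length = m := by
  simp [part]

theorem getElem_part (m i : ℕ) (w : List Bool) (j : ℕ) (h : j < (part m i w).length) :
    (part m i w)[j] = w.getD (i * m + j) false := by
  simp [part]

theorem poly_part {α : Type} [TEnc α] {m i : α → ℕ} {w : α → List Bool} (hm : UPoly m)
    (hi : Poly i) (hw : Poly w) : Poly (fun a => part (m a) (i a) (w a)) := by
  unfold part
  exact NPC.Poly.map (l := fun a => List.range (m a))
    (F := fun a j => (w a).getD (i a * m a + j) false) hm.range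
    (Poly.getD (hw.comp (Poly.fst Poly.id)) (Poly.add (Poly.mul (hi.comp (Poly.fst Poly.id))
      (hm.toPoly.comp (Poly.fst Poly.id))) (Poly.snd Poly.id)) (NPC.Poly.const false))

/-- questions to `A` can be asked to the joint oracle -/
theorem joinL {A : Oracle} (S : Set (List Bool)) {V : List Bool → List Bool} (hV : IsFP A V) :
    IsFP (join A S) V := by
  obtain ⟨M, hM⟩ := hV
  have hD := poly_of_polyTime M.poly
  have hN : Poly (fun z : List Bool =>
      if (M.D z).head? = some false then false :: M.D z else M.D z) :=
    Poly.ite (Poly.decide_eq (Poly.head? hD) (NPC.Poly.const _))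
      (Poly.cons (NPC.Poly.const false) hD) hD
  refine ⟨⟨_, polyTime_of_poly_list hN, M.p⟩, fun x => ?_⟩
  have key : ∀ (n : ℕ) (a : List Bool),
      Alg.run ⟨_, polyTime_of_poly_list hN, M.p⟩ (join A S) x n a = M.run A x n a := by
    intro n
    induction n with
    | zero => intro a; rfl
    | succ n ih =>
      intro a
      rcases hq : M.D (pairBits x a) with _ | ⟨c, q⟩
      · simp [Alg.run, hq]
      · cases c with
        | true => simp [Alg.run, hq]
        | false =>
          simp only [Alg.run, hq, List.head?_cons, if_true]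
          exact ih _
  exact (key _ _).trans (hM x)

/-- one of the parts of `w` gives an answer for `x` -/
def Ok (V : List Bool → List Bool) (p : Polynomial ℕ) (w x : List Bool) : Prop :=
  ∃ i < x.length + 1, V (pairBits (part (p.eval x.length) i w) x) = [true] ∨
    V (pairBits (part (p.eval x.length) i w) x) = [false]

theorem exists_test {A : Oracle} {V : List Bool → List Bool} (hV : IsFP A V) (p : Polynomial ℕ) :
    ∃ G : List Bool → List Bool, IsFP A G ∧
      ∀ w x, G (pairBits w x) = [true] ↔ Ok V p w x := by
  have h1 : IsFP A (fun y => if V y = [true] ∨ V y = [false] then [true] else []) :=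
    IsFP.comp (G := fun v => if v = [true] ∨ v = [false] then [true] else [])
      (IsFP.of_poly (Poly.ite (Poly.decide_or (Poly.decide_eq Poly.id (NPC.Poly.const _))
        (Poly.decide_eq Poly.id (NPC.Poly.const _))) (NPC.Poly.const _) (NPC.Poly.const _))) hV
  have hQ : Poly (fun _ : ℕ × List Bool => ([] : List (List Bool))) := NPC.Poly.const _
  have hu : Poly (fun q : (ℕ × List Bool) × List Bool => unpair q.1.2) :=
    poly_unpair.comp (Poly.snd (Poly.fst Poly.id))
  have hW : Poly (fun q : (ℕ × List Bool) × List Bool =>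
      pairBits (part (p.eval (unpair q.1.2).2.length) q.1.1 (unpair q.1.2).1)
        (unpair q.1.2).2) :=
    poly_pairBits (poly_part ((UPoly.length (Poly.snd hu)).eval p) (Poly.fst (Poly.fst Poly.id))
      (Poly.fst hu)) (Poly.snd hu)
  have hu' : Poly (fun q : List Bool × List Bool => unpair q.1) :=
    poly_unpair.comp (Poly.fst Poly.id)
  have hH : Poly (fun q : List Bool × List Bool =>
      if (q.2.take ((unpair q.1).2.length + 1)).any (fun b => b) then [true]
        else ([] : List Bool)) := by
    refine Poly.ite (Poly.decide_bool ?_) (NPC.Poly.const _) (NPC.Poly.const _)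
    exact Poly.any (p := fun _ b => b) (R1.poly_take (Poly.snd Poly.id)
      ((UPoly.length (Poly.snd hu')).add (UPoly.const 1))) (Poly.snd Poly.id)
  have h2 := IsFP.votes h1 (Polynomial.X + 1) hQ hW hH
  refine ⟨_, h2, fun w x => ?_⟩
  have hle : x.length + 1 ≤ (Polynomial.X + 1 : Polynomial ℕ).eval (pairBits w x).length := by
    rw [A2.length_pairBits]
    simp
    omega
  have h3 : ∀ b : Bool, ((if b = true then [true] else ([] : List Bool)) = [true]) ↔ b = true := by
    intro b
    cases b <;> simp
  simp only [unpair_pairBits]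
  rw [h3, ← List.map_take, List.take_range, min_eq_left hle]
  simp only [List.any_map, List.any_eq_true, List.mem_range, Function.comp]
  unfold Ok
  refine exists_congr fun i => and_congr_right fun _ => ?_
  rw [decide_eq_true_iff]
  split_ifs with h4
  · exact iff_of_true rfl h4
  · exact iff_of_false (by simp) h4

/-- the string `w` is good for the inputs of length `n` -/
def Good (V : List Bool → List Bool) (p : Polynomial ℕ) (n : ℕ) (w : List Bool) : Prop :=
  w.length = (n + 1) * p.eval n ∧ ∀ x : List Bool, x.length = n → Ok V p w x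

theorem exists_good {V : List Bool → List Bool} {p : Polynomial ℕ}
    (hx : ∀ x : List Bool, (1 : ℝ) / 2 ≤ (Nat.card {w : Fin (p.eval x.length) → Bool //
      V (pairBits (List.ofFn w) x) = [true] ∨ V (pairBits (List.ofFn w) x) = [false]} : ℝ) /
      2 ^ p.eval x.length) (n : ℕ) : ∃ w, Good V p n w := by
  classical
  set m := p.eval n with hm
  -- the strings which give no answer
  let B : (Fin n → Bool) → Finset (Fin m → Bool) := fun x => Finset.univ.filter fun w =>
    ¬ (V (pairBits (List.ofFn w) (List.ofFn x)) = [true] ∨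
      V (pairBits (List.ofFn w) (List.ofFn x)) = [false])
  have hB : ∀ x, 2 * (B x).card ≤ 2 ^ m := by
    intro x
    have h1 := hx (List.ofFn x)
    have hl : (List.ofFn x).length = n := by simp
    rw [hl] at h1
    change (1 : ℝ) / 2 ≤ (Nat.card {w : Fin m → Bool //
      V (pairBits (List.ofFn w) (List.ofFn x)) = [true] ∨
      V (pairBits (List.ofFn w) (List.ofFn x)) = [false]} : ℝ) / 2 ^ m at h1
    rw [Nat.card_eq_fintype_card, Fintype.card_subtype, div_le_div_iff₀ (by norm_num)
      (by positivity)] at h1
    have h2 := Finset.card_filter_add_card_filter_not (s := (Finset.univ : Finset (Fin m → Bool)))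
      (fun w => V (pairBits (List.ofFn w) (List.ofFn x)) = [true] ∨
      V (pairBits (List.ofFn w) (List.ofFn x)) = [false])
    rw [Finset.card_univ, Fintype.card_fun, Fintype.card_bool, Fintype.card_fin] at h2
    have h3 : (2 : ℕ) ^ m ≤ (Finset.univ.filter fun w : Fin m → Bool =>
        V (pairBits (List.ofFn w) (List.ofFn x)) = [true] ∨
        V (pairBits (List.ofFn w) (List.ofFn x)) = [false]).card * 2 := by
      have h4 : (1 : ℝ) * 2 ^ m = ((2 ^ m : ℕ) : ℝ) := by push_cast; ring
      rw [h4] at h1
      exact_mod_cast h1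
    have h5 : (B x).card = (Finset.univ.filter fun w : Fin m → Bool =>
        ¬ (V (pairBits (List.ofFn w) (List.ofFn x)) = [true] ∨
        V (pairBits (List.ofFn w) (List.ofFn x)) = [false])).card := rfl
    omega
  -- a string off all of them
  have hex : ∃ c : Fin (n + 1) → Fin m → Bool, ∀ x, ∃ i, c i ∉ B x := by
    by_contra hcon
    push Not at hcon
    have h1 : (Finset.univ : Finset (Fin (n + 1) → Fin m → Bool)) ⊆
        Finset.univ.biUnion fun x : Fin n → Bool =>
          Fintype.piFinset fun _ : Fin (n + 1) => B x := by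
      intro c _
      obtain ⟨x, hx⟩ := hcon c
      rw [Finset.mem_biUnion]
      exact ⟨x, Finset.mem_univ _, Fintype.mem_piFinset.2 hx⟩
    have h2 := (Finset.card_le_card h1).trans Finset.card_biUnion_le
    simp only [Finset.card_univ, Fintype.card_fun, Fintype.card_bool, Fintype.card_fin,
      Fintype.card_piFinset, Finset.prod_const] at h2
    have h3 : ∑ x : Fin n → Bool, (B x).card ^ (n + 1) * 2 ^ (n + 1) ≤
        ∑ _x : Fin n → Bool, (2 ^ m) ^ (n + 1) := by
      refine Finset.sum_le_sum fun x _ => ?_
      rw [← mul_pow]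
      exact Nat.pow_le_pow_left (by have := hB x; omega) _
    rw [← Finset.sum_mul, Finset.sum_const, Finset.card_univ, Fintype.card_fun, Fintype.card_bool,
      Fintype.card_fin, smul_eq_mul] at h3
    have h4 : (2 ^ m) ^ (n + 1) * 2 ^ (n + 1) ≤ 2 ^ n * (2 ^ m) ^ (n + 1) :=
      (Nat.mul_le_mul_right _ h2).trans h3
    have h5 : 0 < (2 ^ m) ^ (n + 1) := by positivity
    have h6 : 2 ^ (n + 1) ≤ 2 ^ n := by
      rw [mul_comm] at h4
      exact Nat.le_of_mul_le_mul_right h4 h5
    have h7 : 2 ^ n < 2 ^ (n + 1) := Nat.pow_lt_pow_right (by norm_num) (by omega)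
    omega
  obtain ⟨c, hc⟩ := hex
  let w : List Bool := List.ofFn fun t : Fin ((n + 1) * m) =>
    c (finProdFinEquiv.symm t).1 (finProdFinEquiv.symm t).2
  have hw : ∀ i : Fin (n + 1), part m i w = List.ofFn (c i) := by
    intro i
    apply List.ext_getElem
    · simp [part]
    · intro j h1 h2
      have hj : j < m := by simpa using h2
      have h3 : (i : ℕ) * m + j = (finProdFinEquiv (i, (⟨j, hj⟩ : Fin m)) : ℕ) := by
        simp [finProdFinEquiv]
        ring
      have h4 : (i : ℕ) * m + j < (n + 1) * m := by
        rw [h3]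
        exact (finProdFinEquiv (i, (⟨j, hj⟩ : Fin m))).2
      rw [getElem_part, List.getElem_ofFn,
        List.getD_eq_getElem _ _ (by simpa [w] using h4), List.getElem_ofFn]
      have h5 : (⟨(i : ℕ) * m + j, h4⟩ : Fin ((n + 1) * m)) =
          finProdFinEquiv (i, (⟨j, hj⟩ : Fin m)) := Fin.ext h3
      rw [h5, Equiv.symm_apply_apply]
  refine ⟨w, by simp [w, hm], fun x hxn => ?_⟩
  obtain ⟨i, hi⟩ := hc (fun t => x.get (t.cast hxn.symm))
  have hxx : List.ofFn (fun t : Fin n => x.get (t.cast hxn.symm)) = x := by
    apply List.ext_getElem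
    · simp [hxn]
    · intro j h6 h7
      simp
  have h1 : V (pairBits (List.ofFn (c i)) x) = [true] ∨
      V (pairBits (List.ofFn (c i)) x) = [false] := by
    by_contra h2
    refine hi (Finset.mem_filter.2 ⟨Finset.mem_univ _, ?_⟩)
    rw [hxx]
    exact h2
  rw [← hw i] at h1
  refine ⟨i, by rw [hxn]; exact i.2, ?_⟩
  rw [hxn]
  exact h1

theorem valB_inj : ∀ w w' : List Bool, w.length = w'.length → valB w = valB w' → w = w'
  | [], [], _, _ => rfl
  | [], _ :: _, h, _ => by simp at h
  | _ :: _, [], h, _ => by simp at h
  | b :: w, b' :: w', h, h' => by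
    simp only [valB_cons, List.length_cons] at h h'
    have h1 : b = b' := by
      cases b <;> cases b' <;> simp at h' ⊢ <;> omega
    subst h1
    rw [valB_inj w w' (by omega) (by omega)]

/-- the string `w` is the first good one for `n` -/
def First (V : List Bool → List Bool) (p : Polynomial ℕ) (n : ℕ) (w : List Bool) : Prop :=
  Good V p n w ∧ ∀ w', Good V p n w' → ¬ valB w' < valB w

theorem exists_first {V : List Bool → List Bool} {p : Polynomial ℕ} {n : ℕ}
    (h : ∃ w, Good V p n w) : ∃ w, First V p n w := by
  classical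
  have h1 : ∃ v, ∃ w, Good V p n w ∧ valB w = v := by
    obtain ⟨w, hw⟩ := h
    exact ⟨_, w, hw, rfl⟩
  obtain ⟨w, hw, hv⟩ := Nat.find_spec h1
  refine ⟨w, hw, fun w' hw' h2 => ?_⟩
  rw [hv] at h2
  exact Nat.find_min h1 h2 ⟨w', hw', rfl⟩

theorem First.unique {V : List Bool → List Bool} {p : Polynomial ℕ} {n : ℕ} {w w' : List Bool}
    (h : First V p n w) (h' : First V p n w') : w = w' :=
  valB_inj w w' (h.1.1.trans h'.1.1.symm)
    (le_antisymm (not_lt.1 (h.2 w' h'.1)) (not_lt.1 (h'.2 w h.1)))

/-- the sparse set -/
def Sp (V : List Bool → List Bool) (p : Polynomial ℕ) : Set (List Bool) :=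
  {y | ∃ n i w, y = pairBits (List.replicate n true) (List.replicate i true) ∧
    First V p n w ∧ w.getD i false = true}

theorem pair_inj {a b c d : List Bool} (h : pairBits a b = pairBits c d) : a = c ∧ b = d := by
  have h1 := congrArg unpair h
  rw [unpair_pairBits, unpair_pairBits] at h1
  exact Prod.mk.inj h1

theorem mem_Sp {V : List Bool → List Bool} {p : Polynomial ℕ} {n i : ℕ} {w : List Bool}
    (hw : First V p n w) :
    pairBits (List.replicate n true) (List.replicate i true) ∈ Sp V p ↔
      w.getD i false = true := by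
  constructor
  · rintro ⟨n', i', w', h1, h2, h3⟩
    obtain ⟨h4, h5⟩ := pair_inj h1
    have h6 : n = n' := by simpa using congrArg List.length h4
    have h7 : i = i' := by simpa using congrArg List.length h5
    subst h6 h7
    rw [hw.unique h2]
    exact h3
  · intro h
    exact ⟨n, i, w, rfl, hw, h⟩

theorem sparse_Sp (V : List Bool → List Bool) (p : Polynomial ℕ) : Sparse (Sp V p) := by
  classical
  refine ⟨(Polynomial.X + 1) * (Polynomial.X + 1), fun N => ?_⟩
  have h1 : ({x | x ∈ Sp V p ∧ x.length ≤ N} : Set (List Bool)) ⊆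
      ((Finset.range (N + 1) ×ˢ Finset.range (N + 1)).image fun t : ℕ × ℕ =>
        pairBits (List.replicate t.1 true) (List.replicate t.2 true) : Finset (List Bool)) := by
    rintro x ⟨⟨n, i, w, rfl, -, -⟩, h2⟩
    rw [A2.length_pairBits, List.length_replicate, List.length_replicate] at h2
    rw [Finset.coe_image]
    exact ⟨(n, i), by simp; omega, rfl⟩
  refine (Set.ncard_le_ncard h1 (Finset.finite_toSet _)).trans ?_
  rw [Set.ncard_coe_finset]
  refine Finset.card_image_le.trans ?_
  rw [Finset.card_product, Finset.card_range]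
  simp

/-! ### The set is in the polynomial hierarchy -/

/-- the string `w` -/
def zw (z : List Bool) : List Bool := (unpair (unpair (unpair z).2).2).1

/-- the input -/
def zy (z : List Bool) : List Bool := (unpair (unpair (unpair z).2).2).2

/-- the string `u` -/
def zu (z : List Bool) : List Bool := (unpair (unpair z).2).1

theorem poly_zw : Poly zw := Poly.fst (poly_unpair.comp (Poly.snd
  (poly_unpair.comp (Poly.snd poly_unpair))))

theorem poly_zy : Poly zy := Poly.snd (poly_unpair.comp (Poly.snd
  (poly_unpair.comp (Poly.snd poly_unpair))))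

theorem poly_zu : Poly zu := Poly.fst (poly_unpair.comp (Poly.snd poly_unpair))

theorem isPH_Sp {A : Oracle} {V : List Bool → List Bool} (hV : IsFP A V) (p : Polynomial ℕ) :
    IsPH A (Sp V p) := by
  obtain ⟨G, hG, hGok⟩ := exists_test hV p
  have i1 : Poly (fun q : List Bool × List Bool × List Bool => q.1) := Poly.fst Poly.id
  have g1 : Poly (fun q : List Bool × List Bool × List Bool => q.2.1) :=
    Poly.fst (Poly.snd Poly.id)
  have g2 : Poly (fun q : List Bool × List Bool × List Bool => q.2.2) :=
    Poly.snd (Poly.snd Poly.id)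
  have hw := poly_zw.comp i1
  have hy := poly_unpair.comp (poly_zy.comp i1)
  have hu := poly_unpair.comp (poly_zu.comp i1)
  have hn : UPoly (fun q : List Bool × List Bool × List Bool =>
    (unpair (zy q.1)).1.length) := UPoly.length (Poly.fst hy)
  have hm : UPoly (fun q : List Bool × List Bool × List Bool =>
    ((unpair (zy q.1)).1.length + 1) * p.eval (unpair (zy q.1)).1.length) :=
    (hn.add (UPoly.const 1)).mul (hn.eval p)
  have t1 : Poly (fun q : List Bool × List Bool × List Bool => decide
      (pairBits (List.replicate (unpair (zy q.1)).1.length true)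
        (List.replicate (unpair (zy q.1)).2.length true) = zy q.1)) :=
    Poly.decide_eq (poly_pairBits (V7.poly_replicate hn)
      (V7.poly_replicate (UPoly.length (Poly.snd hy)))) (poly_zy.comp i1)
  have t2 : Poly (fun q : List Bool × List Bool × List Bool => decide
      ((zw q.1).length =
        ((unpair (zy q.1)).1.length + 1) * p.eval (unpair (zy q.1)).1.length)) :=
    Poly.decide_eq (Poly.length hw) hm.toPoly
  have t3 : Poly (fun q : List Bool × List Bool × List Bool => decide
      ((zw q.1).getD (unpair (zy q.1)).2.length false = true)) :=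
    Poly.decide_bool (Poly.getD hw (Poly.length (Poly.snd hy)) (NPC.Poly.const false))
  have t4 : Poly (fun q : List Bool × List Bool × List Bool => decide
      (¬ (unpair (zu q.1)).2.length = (unpair (zy q.1)).1.length ∨ q.2.1 = [true])) :=
    Poly.decide_or (Poly.decide_not (Poly.decide_eq (Poly.length (Poly.snd hu)) hn.toPoly))
      (Poly.decide_eq g1 (NPC.Poly.const _))
  have t5 : Poly (fun q : List Bool × List Bool × List Bool => decide
      (¬ ((unpair (zu q.1)).1.length = ((unpair (zy q.1)).1.length + 1) *
        p.eval (unpair (zy q.1)).1.length ∧ valB (unpair (zu q.1)).1 < valB (zw q.1)) ∨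
        ((unpair q.1).1.length = (unpair (zy q.1)).1.length ∧ ¬ q.2.2 = [true]))) :=
    Poly.decide_or (Poly.decide_not (Poly.decide_and (Poly.decide_eq (Poly.length (Poly.fst hu))
      hm.toPoly) (Poly.decide_lt (Poly.valBits (Poly.fst hu)) (Poly.valBits hw))))
      (Poly.decide_and (Poly.decide_eq (Poly.length (Poly.fst (poly_unpair.comp i1))) hn.toPoly)
        (Poly.decide_not (Poly.decide_eq g2 (NPC.Poly.const _))))
  have hψ := Poly.ite (Poly.decide_and t1 (Poly.decide_and t2 (Poly.decide_and t3
    (Poly.decide_and t4 t5)))) (NPC.Poly.const [true]) (NPC.Poly.const ([] : List Bool))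
  have hφ : Poly (fun q : List Bool × List Bool =>
      pairBits (unpair (zu q.1)).1 (unpair q.1).1) :=
    poly_pairBits (Poly.fst (poly_unpair.comp (poly_zu.comp (Poly.fst Poly.id))))
      (Poly.fst (poly_unpair.comp (Poly.fst Poly.id)))
  have hF : IsFP A (fun z => G (pairBits (zw z) (unpair (zu z)).2)) :=
    hG.precomp (poly_pairBits poly_zw (Poly.snd (poly_unpair.comp poly_zu)))
  have hS := IsFP.seq hF hG hφ hψ
  obtain ⟨V3, hV3, htest⟩ : ∃ V3 : List Bool → List Bool, IsFP A V3 ∧ ∀ x' u w y : List Bool,
      V3 (pairBits x' (pairBits u (pairBits w y))) = [true] ↔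
      (pairBits (List.replicate (unpair y).1.length true)
        (List.replicate (unpair y).2.length true) = y ∧
      w.length = ((unpair y).1.length + 1) * p.eval (unpair y).1.length ∧
      w.getD (unpair y).2.length false = true ∧
      (¬ (unpair u).2.length = (unpair y).1.length ∨ Ok V p w (unpair u).2) ∧
      (¬ ((unpair u).1.length = ((unpair y).1.length + 1) * p.eval (unpair y).1.length ∧
        valB (unpair u).1 < valB w) ∨
        (x'.length = (unpair y).1.length ∧ ¬ Ok V p (unpair u).1 x'))) := by
    refine ⟨_, hS, fun x' u w y => ?_⟩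
    simp only [zw, zy, zu, unpair_pairBits]
    split_ifs with h
    · simp only [hGok] at h
      exact iff_of_true rfl h
    · simp only [hGok] at h
      exact iff_of_false (by simp) h
  refine ⟨V3, 2 * ((Polynomial.X + 1) * p) + Polynomial.X + 1, 3, hV3, fun y => ?_⟩
  change _ ↔ ∃ w : List Bool, w.length ≤ _ ∧ ∀ u : List Bool, u.length ≤ _ →
    ∃ x' : List Bool, x'.length ≤ _ ∧ V3 (pairBits x' (pairBits u (pairBits w y))) = [true]
  have hN : ∀ n ≤ y.length, 2 * ((n + 1) * p.eval n) + n + 1 ≤
      (2 * ((Polynomial.X + 1) * p) + Polynomial.X + 1 : Polynomial ℕ).eval y.length := by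
    intro n hn
    have h1 := eval_mono (2 * ((Polynomial.X + 1) * p) + Polynomial.X + 1 : Polynomial ℕ) hn
    simpa using h1
  generalize (2 * ((Polynomial.X + 1) * p) + Polynomial.X + 1 : Polynomial ℕ).eval y.length = M
    at hN ⊢
  constructor
  · rintro ⟨n, i, w, rfl, hw, hi⟩
    have h0 := hN n (by rw [A2.length_pairBits, List.length_replicate]; omega)
    refine ⟨w, by rw [hw.1.1]; omega, fun u _ => ?_⟩
    simp only [htest, unpair_pairBits, List.length_replicate]
    by_cases h1 : (unpair u).1.length = (n + 1) * p.eval n ∧ valB (unpair u).1 < valB w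
    · have h2 : ¬ Good V p n (unpair u).1 := fun h3 => hw.2 _ h3 h1.2
      have h3 : ∃ x : List Bool, x.length = n ∧ ¬ Ok V p (unpair u).1 x := by
        by_contra h4
        push Not at h4
        exact h2 ⟨h1.1, h4⟩
      obtain ⟨x', h4, h5⟩ := h3
      exact ⟨x', by omega, trivial, hw.1.1, hi, (em _).symm.imp id (fun h => hw.1.2 _ h),
        Or.inr ⟨h4, h5⟩⟩
    · exact ⟨[], by simp, trivial, hw.1.1, hi, (em _).symm.imp id (fun h => hw.1.2 _ h), Or.inl h1⟩
  · rintro ⟨w, hw, hall⟩
    simp only [htest] at hall
    have hy' : pairBits (List.replicate (unpair y).1.length true)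
        (List.replicate (unpair y).2.length true) = y ∧
        w.length = ((unpair y).1.length + 1) * p.eval (unpair y).1.length ∧
        w.getD (unpair y).2.length false = true := by
      obtain ⟨x', -, h1, h2, h3, -⟩ := hall [] (by simp)
      exact ⟨h1, h2, h3⟩
    obtain ⟨h1, h2, h3⟩ := hy'
    set n := (unpair y).1.length with hn
    have hny : n ≤ y.length := by
      have h4 := congrArg List.length h1
      rw [A2.length_pairBits, List.length_replicate] at h4
      omega
    have h0 := hN n hny
    refine ⟨n, (unpair y).2.length, w, h1.symm, ⟨⟨h2, fun x hx => ?_⟩, fun w' hw' hlt => ?_⟩, h3⟩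
    · obtain ⟨x', -, -, -, -, h5, -⟩ := hall (pairBits [] x)
        (by rw [A2.length_pairBits, List.length_nil]; omega)
      rw [unpair_pairBits] at h5
      exact h5.resolve_left (fun h => h hx)
    · obtain ⟨x', -, -, -, -, -, h5⟩ := hall (pairBits w' [])
        (by rw [A2.length_pairBits, List.length_nil, hw'.1]; omega)
      rw [unpair_pairBits] at h5
      rcases h5 with h5 | h5
      · exact h5 ⟨hw'.1, hlt⟩
      · exact h5.2 (hw'.2 x' h5.1)

/-- the complete language is in `P` relative to `A` and the sparse set -/
theorem isP_join {A : Oracle} {V : List Bool → List Bool} {p : Polynomial ℕ}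
    {K : Set (List Bool)} (hV : IsFP A V) (hgood : ∀ n, ∃ w, Good V p n w)
    (hsound : ∀ x, ∀ w : List Bool, w.length = p.eval x.length →
      (V (pairBits w x) = [true] → x ∈ K) ∧ (V (pairBits w x) = [false] → x ∉ K)) :
    IsP (join A (Sp V p)) K := by
  classical
  have hn : UPoly (fun q : ℕ × List Bool => q.2.length) := UPoly.length (Poly.snd Poly.id)
  have hm : UPoly (fun q : ℕ × List Bool => min q.1 (q.2.length + 1)) :=
    UPoly.of_le (Poly.min (Poly.fst Poly.id) (hn.add (UPoly.const 1)).toPoly)
      (hn.add (UPoly.const 1)) (fun a => min_le_right _ _)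
  have hQ : Poly (fun q : ℕ × List Bool => (List.range (p.eval q.2.length)).map fun j =>
      true :: pairBits (List.replicate q.2.length true)
        (List.replicate (min (min q.1 (q.2.length + 1) * p.eval q.2.length + j)
          ((q.2.length + 1) * p.eval q.2.length + p.eval q.2.length)) true)) := by
    refine NPC.Poly.map (l := fun q : ℕ × List Bool => List.range (p.eval q.2.length))
      (F := fun q j => true :: pairBits (List.replicate q.2.length true)
        (List.replicate (min (min q.1 (q.2.length + 1) * p.eval q.2.length + j)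
          ((q.2.length + 1) * p.eval q.2.length + p.eval q.2.length)) true)) (hn.eval p).range ?_
    have e1 : UPoly (fun t : (ℕ × List Bool) × ℕ => t.1.2.length) := hn.comp (Poly.fst Poly.id)
    have e2 : UPoly (fun t : (ℕ × List Bool) × ℕ => min t.1.1 (t.1.2.length + 1)) :=
      hm.comp (Poly.fst Poly.id)
    have e3 : UPoly (fun t : (ℕ × List Bool) × ℕ =>
        (t.1.2.length + 1) * p.eval t.1.2.length + p.eval t.1.2.length) :=
      ((e1.add (UPoly.const 1)).mul (e1.eval p)).add (e1.eval p)
    refine Poly.cons (NPC.Poly.const true) (poly_pairBits (V7.poly_replicate e1)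
      (V7.poly_replicate (UPoly.of_le (Poly.min (Poly.add (e2.mul (e1.eval p)).toPoly
        (Poly.snd Poly.id)) e3.toPoly) e3 (fun a => min_le_right _ _))))
  have hW : Poly (fun q : (ℕ × List Bool) × List Bool => pairBits q.2 q.1.2) :=
    poly_pairBits (Poly.snd Poly.id) (Poly.snd (Poly.fst Poly.id))
  have hH : Poly (fun q : List Bool × List Bool =>
      if q.2.any (fun b => b) then [true] else ([] : List Bool)) :=
    Poly.ite (Poly.decide_bool (Poly.any (p := fun _ b => b) (Poly.snd Poly.id)
      (Poly.snd Poly.id))) (NPC.Poly.const _) (NPC.Poly.const _)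
  have h1 := IsFP.votes (joinL (Sp V p) hV) (Polynomial.X + 1) hQ hW hH
  refine ⟨_, h1, fun x => ?_⟩
  obtain ⟨w, hw⟩ := exists_first (hgood x.length)
  have h3 : ∀ b : Bool, ((if b = true then [true] else ([] : List Bool)) = [true]) ↔ b = true := by
    intro b
    cases b <;> simp
  have hev : (Polynomial.X + 1 : Polynomial ℕ).eval x.length = x.length + 1 := by simp
  simp only [hev]
  rw [h3]
  simp only [List.any_map, List.any_eq_true, List.mem_range, Function.comp, List.map_map,
    decide_eq_true_iff]
  -- the answers are the bits of `w`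
  have hans : ∀ i < x.length + 1, (List.range (p.eval x.length)).map ((join A (Sp V p)) ∘
      fun j => true :: pairBits (List.replicate x.length true)
        (List.replicate (min (min i (x.length + 1) * p.eval x.length + j)
          ((x.length + 1) * p.eval x.length + p.eval x.length)) true)) =
      part (p.eval x.length) i w := by
    intro i hi
    unfold part
    refine List.map_congr_left fun j hj => ?_
    rw [List.mem_range] at hj
    have e1 : i * p.eval x.length ≤ (x.length + 1) * p.eval x.length :=
      Nat.mul_le_mul_right _ hi.le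
    have e2 : min (min i (x.length + 1) * p.eval x.length + j)
        ((x.length + 1) * p.eval x.length + p.eval x.length) = i * p.eval x.length + j := by
      rw [min_eq_left hi.le, min_eq_left (by omega)]
    rw [Function.comp_apply, e2]
    rw [Bool.eq_iff_iff, ← mem_Sp hw]
    simp [join]
  constructor
  · intro hx
    obtain ⟨i, hi, h4⟩ := hw.1.2 x rfl
    refine ⟨i, hi, ?_⟩
    rw [hans i hi]
    rcases h4 with h4 | h4
    · exact h4
    · exact absurd hx ((hsound x _ (length_part _ _ _)).2 h4)
  · rintro ⟨i, hi, h4⟩
    rw [hans i hi] at h4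
    exact (hsound x _ (length_part _ _ _)).1 h4

end SparseC

/-- S2: if `PSPACE = ZPP`, then there is a sparse Cook-complete set. -/
theorem t_sparseC (h0 : St_complete) : St_sparseC := by
  intro A hA
  obtain ⟨K, hK, hcomp⟩ := h0 A
  obtain ⟨V, p, hV, hx⟩ := hA K hK.isPSPACE
  refine ⟨SparseC.Sp V p, SparseC.sparse_Sp V p,
    (hA _ (SparseC.isPH_Sp hV p).isPSPACE).isNP, fun L hL => ?_⟩
  obtain ⟨g, hg, hgL⟩ := hcomp L hL
  obtain ⟨W, hW, hWK⟩ := SparseC.isP_join (K := K) hV
    (SparseC.exists_good fun x => (hx x).2) (fun x => (hx x).1)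
  exact ⟨fun x => W (g x), hW.precomp (poly_of_polyTime hg), fun x => (hgL x).trans (hWK _)⟩

end Pool.Agent.H752.GM
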